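import Pool.Agent.helper20.HP.S0

/-! Module B8 of the project MP_5ae64c_pr: exponential concentration of window averages. -/

open scoped BigOperators Topology
open Filter MeasureTheory

namespace Pool.Agent.helper20.HP

variable {V : Type} [Fintype V] [DecidableEq V]

theorem B8_drop (K : HW V) (o : V) (r m : ℕ) (F : List (Aut K) → ℝ) :
    EL K o (r + m) (fun L => F (L.drop r)) = EL K o m F := by
  rw [EL_split]
  have h1 : EL K o r (fun L => EL K o m (fun L' => F ((L ++ L').drop r)))
      = EL K o r (fun _ => EL K o m F) := by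
    apply EL_congr
    intro L hL
    apply EL_congr
    intro L' _
    rw [← hL, List.drop_left]
  rw [h1, EL_const]

theorem B8_prod (K : HW V) (o : V) (ℓ : ℕ) (φ : List (Aut K) → ℝ) (N r : ℕ) :
    EL K o (ℓ * N + r) (fun L => ∏ k ∈ Finset.range N, φ ((L.drop (ℓ * k)).take ℓ))
      = (EL K o ℓ φ) ^ N := by
  induction N with
  | zero =>
    simp only [Finset.range_zero, Finset.prod_empty, pow_zero]
    exact EL_const K o _ 1
  | succ N ih =>
    have e : ℓ * (N + 1) + r = ℓ + (ℓ * N + r) := by ring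
    rw [e, EL_split]
    have h1 : EL K o ℓ (fun L => EL K o (ℓ * N + r) (fun L' =>
          ∏ k ∈ Finset.range (N + 1), φ (((L ++ L').drop (ℓ * k)).take ℓ)))
        = EL K o ℓ (fun L => φ L * (EL K o ℓ φ) ^ N) := by
      apply EL_congr
      intro L hL
      have h2 : EL K o (ℓ * N + r) (fun L' =>
          ∏ k ∈ Finset.range (N + 1), φ (((L ++ L').drop (ℓ * k)).take ℓ))
          = EL K o (ℓ * N + r) (fun L' => φ L *
          ∏ k ∈ Finset.range N, φ ((L'.drop (ℓ * k)).take ℓ)) := by
        apply EL_congr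
        intro L' _
        rw [Finset.prod_range_succ']
        rw [mul_comm]
        congr 1
        · simp only [Nat.mul_zero, List.drop_zero]
          rw [← hL, List.take_left]
        · apply Finset.prod_congr rfl
          intro k _
          have : ℓ * (k + 1) = L.length + ℓ * k := by rw [hL]; ring
          rw [this, ← List.drop_drop, List.drop_left]
      rw [h2, EL_mul_left, ih]
    rw [h1, EL_mul_right, pow_succ, mul_comm]

theorem B8_sum (ℓ N : ℕ) (a : ℕ → ℝ) :
    ∑ i ∈ Finset.range (ℓ * N), a i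
      = ∑ r ∈ Finset.range ℓ, ∑ k ∈ Finset.range N, a (r + ℓ * k) := by
  induction N with
  | zero => simp
  | succ N ih =>
    have e : ℓ * (N + 1) = ℓ * N + ℓ := by ring
    rw [e, Finset.sum_range_add, ih]
    simp only [Finset.sum_range_succ, Finset.sum_add_distrib]
    congr 1
    apply Finset.sum_congr rfl
    intro r _
    rw [add_comm]

theorem B8_mgf (K : HW V) (o : V) (ℓ : ℕ) (g : List (Aut K) → ℝ) (C : ℝ)
    (hg : ∀ L, L.length = ℓ → |g L| ≤ 2 * C) (h0 : EL K o ℓ g = 0) (lam : ℝ) (hl : 0 ≤ lam)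
    (hl' : 2 * C * lam ≤ 1) :
    EL K o ℓ (fun L => Real.exp (lam * g L)) ≤ Real.exp (4 * lam ^ 2 * C ^ 2) := by
  have h1 : EL K o ℓ (fun L => Real.exp (lam * g L))
      ≤ EL K o ℓ (fun L => (1 + 4 * lam ^ 2 * C ^ 2) + lam * g L) := by
    apply EL_mono
    intro L hL
    have hb := hg L hL
    have hab : |lam * g L| ≤ 1 := by
      rw [abs_mul, abs_of_nonneg hl]
      calc lam * |g L| ≤ lam * (2 * C) := mul_le_mul_of_nonneg_left hb hl
        _ = 2 * C * lam := by ring
        _ ≤ 1 := hl'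
    have hq := Real.abs_exp_sub_one_sub_id_le hab
    have hq' := (abs_le.mp hq).2
    have hsq : (lam * g L) ^ 2 ≤ 4 * lam ^ 2 * C ^ 2 := by
      have h3 : (g L) ^ 2 ≤ (2 * C) ^ 2 := by
        have := abs_nonneg (g L)
        rw [← sq_abs]
        exact pow_le_pow_left₀ this hb 2
      calc (lam * g L) ^ 2 = lam ^ 2 * (g L) ^ 2 := by ring
        _ ≤ lam ^ 2 * (2 * C) ^ 2 := mul_le_mul_of_nonneg_left h3 (sq_nonneg _)
        _ = 4 * lam ^ 2 * C ^ 2 := by ring
    linarith
  have h2 : EL K o ℓ (fun L => (1 + 4 * lam ^ 2 * C ^ 2) + lam * g L)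
      = 1 + 4 * lam ^ 2 * C ^ 2 := by
    rw [EL_add, EL_const, EL_mul_left, h0]
    ring
  rw [h2] at h1
  refine h1.trans ?_
  have := Real.add_one_le_exp (4 * lam ^ 2 * C ^ 2)
  linarith

/-- one residue, one sign -/
theorem B8_one (K : HW V) (o : V) (ℓ N r : ℕ) (hr : r ≤ ℓ) (g : List (Aut K) → ℝ) (C : ℝ)
    (hC : 0 < C) (hg : ∀ L, L.length = ℓ → |g L| ≤ 2 * C) (h0 : EL K o ℓ g = 0) (ε : ℝ)
    (hε : 0 < ε) (hε' : ε < 2 * C) :
    EL K o (ℓ * (N + 1)) (fun L => ind (ε * (N : ℝ) <
        ∑ k ∈ Finset.range N, g ((L.drop (r + ℓ * k)).take ℓ)))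
      ≤ Real.exp (- (ε ^ 2 * N / (16 * C ^ 2))) := by
  set lam : ℝ := ε / (8 * C ^ 2) with hlam
  have hC2 : 0 < C ^ 2 := by positivity
  have hl0 : 0 < lam := by positivity
  have hl1 : 2 * C * lam ≤ 1 := by
    rw [hlam]
    have : 2 * C * (ε / (8 * C ^ 2)) = ε / (4 * C) := by
      field_simp
      ring
    rw [this, div_le_one (by positivity)]
    linarith
  have e1 : ℓ * (N + 1) = r + (ℓ * N + (ℓ - r)) := by
    have : ℓ * (N + 1) = ℓ * N + ℓ := by ring
    omega
  have hstep : EL K o (ℓ * (N + 1)) (fun L => ind (ε * (N : ℝ) <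
        ∑ k ∈ Finset.range N, g ((L.drop (r + ℓ * k)).take ℓ)))
      ≤ EL K o (ℓ * (N + 1)) (fun L => Real.exp (-(lam * (ε * N))) *
        ∏ k ∈ Finset.range N, Real.exp (lam * g ((L.drop (r + ℓ * k)).take ℓ))) := by
    apply EL_mono
    intro L _
    rw [← Real.exp_sum, ← Finset.mul_sum, ← Real.exp_add]
    by_cases hc : ε * (N : ℝ) < ∑ k ∈ Finset.range N, g ((L.drop (r + ℓ * k)).take ℓ)
    · rw [ind_true hc]
      apply Real.one_le_exp
      have := mul_le_mul_of_nonneg_left hc.le hl0.le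
      linarith
    · rw [ind_false hc]
      exact (Real.exp_pos _).le
  refine hstep.trans ?_
  rw [EL_mul_left]
  have e2 : EL K o (ℓ * (N + 1)) (fun L =>
        ∏ k ∈ Finset.range N, Real.exp (lam * g ((L.drop (r + ℓ * k)).take ℓ)))
      = (EL K o ℓ (fun L => Real.exp (lam * g L))) ^ N := by
    rw [e1]
    have := B8_drop K o r (ℓ * N + (ℓ - r)) (fun L =>
        ∏ k ∈ Finset.range N, Real.exp (lam * g ((L.drop (ℓ * k)).take ℓ)))
    simp only [List.drop_drop] at this
    rw [this]
    exact B8_prod K o ℓ (fun L => Real.exp (lam * g L)) N (ℓ - r)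
  rw [e2]
  have h3 : (EL K o ℓ (fun L => Real.exp (lam * g L))) ^ N
      ≤ (Real.exp (4 * lam ^ 2 * C ^ 2)) ^ N := by
    apply pow_le_pow_left₀
    · exact EL_nonneg K o ℓ (fun L _ => (Real.exp_pos _).le)
    · exact B8_mgf K o ℓ g C hg h0 lam hl0.le hl1
  calc Real.exp (-(lam * (ε * N))) * (EL K o ℓ (fun L => Real.exp (lam * g L))) ^ N
      ≤ Real.exp (-(lam * (ε * N))) * (Real.exp (4 * lam ^ 2 * C ^ 2)) ^ N :=
        mul_le_mul_of_nonneg_left h3 (Real.exp_pos _).le
    _ = Real.exp (- (ε ^ 2 * N / (16 * C ^ 2))) := by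
        rw [← Real.exp_nat_mul, ← Real.exp_add]
        congr 1
        rw [hlam]
        field_simp
        ring

theorem conc (K : HW V) (o : V) (ℓ N : ℕ) (hℓ : 1 ≤ ℓ) (f : List (Aut K) → ℝ) (C : ℝ) (hC : 0 < C)
    (hf : ∀ L, L.length = ℓ → |f L| ≤ C) (ε : ℝ) (hε : 0 < ε) :
    EL K o (ℓ * (N + 1)) (fun L => ind (ε * ((ℓ : ℝ) * N) <
        |∑ i ∈ Finset.range (ℓ * N), (f ((L.drop i).take ℓ) - EL K o ℓ f)|))
      ≤ 2 * ℓ * Real.exp (- (ε ^ 2 * N / (16 * C ^ 2))) := by
  have hℓ0 : (0 : ℝ) < ℓ := by exact_mod_cast hℓ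
  set κ : ℝ := EL K o ℓ f with hκ
  have hκC : |κ| ≤ C := by
    rw [abs_le]
    constructor
    · have h1 : EL K o ℓ (fun _ => -C) ≤ EL K o ℓ f :=
        EL_mono K o ℓ (fun L hL => (abs_le.mp (hf L hL)).1)
      rwa [EL_const] at h1
    · have h1 : EL K o ℓ f ≤ EL K o ℓ (fun _ => C) :=
        EL_mono K o ℓ (fun L hL => (abs_le.mp (hf L hL)).2)
      rwa [EL_const] at h1
  set g : List (Aut K) → ℝ := fun L => f L - κ with hgdef
  have hg : ∀ L, L.length = ℓ → |g L| ≤ 2 * C := by
    intro L hL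
    have h1 := hf L hL
    have h2 := abs_sub (f L) κ
    simp only [hgdef]
    linarith
  have h0 : EL K o ℓ g = 0 := by
    simp only [hgdef]
    rw [EL_sub, EL_const, ← hκ, sub_self]
  have hg' : ∀ L, L.length = ℓ → |(fun L => -g L) L| ≤ 2 * C := by
    intro L hL
    simp only [abs_neg]
    exact hg L hL
  have h0' : EL K o ℓ (fun L => -g L) = 0 := by
    have : (fun L => -g L) = (fun L => (-1 : ℝ) * g L) := by funext L; ring
    rw [this, EL_mul_left, h0, mul_zero]
  by_cases hbig : 2 * C ≤ ε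
  · -- the event is empty
    have hz : EL K o (ℓ * (N + 1)) (fun L => ind (ε * ((ℓ : ℝ) * N) <
        |∑ i ∈ Finset.range (ℓ * N), (f ((L.drop i).take ℓ) - κ)|))
        = EL K o (ℓ * (N + 1)) (fun _ => (0 : ℝ)) := by
      apply EL_congr
      intro L hL
      apply ind_false
      rw [not_lt]
      calc |∑ i ∈ Finset.range (ℓ * N), (f ((L.drop i).take ℓ) - κ)|
          ≤ ∑ i ∈ Finset.range (ℓ * N), |f ((L.drop i).take ℓ) - κ| :=
            Finset.abs_sum_le_sum_abs _ _
        _ ≤ ∑ i ∈ Finset.range (ℓ * N), (2 * C) := by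
            apply Finset.sum_le_sum
            intro i hi
            have hi' := Finset.mem_range.mp hi
            apply hg
            rw [List.length_take, List.length_drop, hL]
            have : ℓ * (N + 1) = ℓ * N + ℓ := by ring
            omega
        _ = ((ℓ : ℝ) * N) * (2 * C) := by
            rw [Finset.sum_const, Finset.card_range, nsmul_eq_mul]
            push_cast
            ring
        _ ≤ ε * ((ℓ : ℝ) * N) := by
            rw [mul_comm ε]
            exact mul_le_mul_of_nonneg_left hbig (by positivity)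
    rw [hz, EL_const]
    positivity
  · push Not at hbig
    have hmain : EL K o (ℓ * (N + 1)) (fun L => ind (ε * ((ℓ : ℝ) * N) <
        |∑ i ∈ Finset.range (ℓ * N), (f ((L.drop i).take ℓ) - κ)|))
        ≤ EL K o (ℓ * (N + 1)) (fun L => ∑ r ∈ Finset.range ℓ,
          (ind (ε * (N : ℝ) < ∑ k ∈ Finset.range N, g ((L.drop (r + ℓ * k)).take ℓ)) +
           ind (ε * (N : ℝ) < ∑ k ∈ Finset.range N,
             (fun L => -g L) ((L.drop (r + ℓ * k)).take ℓ)))) := by
      apply EL_mono
      intro L _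
      have hnn : ∀ r ∈ Finset.range ℓ, 0 ≤
          (ind (ε * (N : ℝ) < ∑ k ∈ Finset.range N, g ((L.drop (r + ℓ * k)).take ℓ)) +
           ind (ε * (N : ℝ) < ∑ k ∈ Finset.range N,
             (fun L => -g L) ((L.drop (r + ℓ * k)).take ℓ))) := by
        intro r _
        exact add_nonneg (ind_nonneg _) (ind_nonneg _)
      by_cases hc : ε * ((ℓ : ℝ) * N) <
        |∑ i ∈ Finset.range (ℓ * N), (f ((L.drop i).take ℓ) - κ)|
      · rw [ind_true hc]
        have hex : ∃ r ∈ Finset.range ℓ, ε * (N : ℝ) <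
            |∑ k ∈ Finset.range N, g ((L.drop (r + ℓ * k)).take ℓ)| := by
          by_contra hno
          push Not at hno
          have : |∑ i ∈ Finset.range (ℓ * N), (f ((L.drop i).take ℓ) - κ)|
              ≤ ε * ((ℓ : ℝ) * N) := by
            rw [B8_sum ℓ N (fun i => f ((L.drop i).take ℓ) - κ)]
            calc |∑ r ∈ Finset.range ℓ, ∑ k ∈ Finset.range N,
                    (f ((L.drop (r + ℓ * k)).take ℓ) - κ)|
                ≤ ∑ r ∈ Finset.range ℓ, |∑ k ∈ Finset.range N,
                    (f ((L.drop (r + ℓ * k)).take ℓ) - κ)| := Finset.abs_sum_le_sum_abs _ _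
              _ ≤ ∑ r ∈ Finset.range ℓ, (ε * (N : ℝ)) := by
                  apply Finset.sum_le_sum
                  intro r hr
                  exact hno r hr
              _ = ε * ((ℓ : ℝ) * N) := by
                  rw [Finset.sum_const, Finset.card_range, nsmul_eq_mul]
                  ring
          exact absurd hc (not_lt.mpr this)
        obtain ⟨r, hr, hrr⟩ := hex
        refine le_trans ?_ (Finset.single_le_sum hnn hr)
        rcases lt_abs.mp hrr with h1 | h1
        · rw [ind_true h1]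
          have := ind_nonneg (ε * (N : ℝ) < ∑ k ∈ Finset.range N,
             (fun L => -g L) ((L.drop (r + ℓ * k)).take ℓ))
          linarith
        · have h2 : ε * (N : ℝ) < ∑ k ∈ Finset.range N,
             (fun L => -g L) ((L.drop (r + ℓ * k)).take ℓ) := by
            rw [← Finset.sum_neg_distrib] at h1
            exact h1
          rw [ind_true h2]
          have := ind_nonneg (ε * (N : ℝ) < ∑ k ∈ Finset.range N,
             g ((L.drop (r + ℓ * k)).take ℓ))
          linarith
      · rw [ind_false hc]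
        exact Finset.sum_nonneg hnn
    refine hmain.trans ?_
    rw [EL_sum]
    have hb : ∀ r ∈ Finset.range ℓ, EL K o (ℓ * (N + 1)) (fun L =>
          (ind (ε * (N : ℝ) < ∑ k ∈ Finset.range N, g ((L.drop (r + ℓ * k)).take ℓ)) +
           ind (ε * (N : ℝ) < ∑ k ∈ Finset.range N,
             (fun L => -g L) ((L.drop (r + ℓ * k)).take ℓ))))
        ≤ 2 * Real.exp (- (ε ^ 2 * N / (16 * C ^ 2))) := by
      intro r hr
      have hr' := (Finset.mem_range.mp hr).le
      rw [EL_add]
      have h1 := B8_one K o ℓ N r hr' g C hC hg h0 ε hε hbig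
      have h2 := B8_one K o ℓ N r hr' (fun L => -g L) C hC hg' h0' ε hε hbig
      linarith
    calc ∑ r ∈ Finset.range ℓ, EL K o (ℓ * (N + 1)) (fun L =>
          (ind (ε * (N : ℝ) < ∑ k ∈ Finset.range N, g ((L.drop (r + ℓ * k)).take ℓ)) +
           ind (ε * (N : ℝ) < ∑ k ∈ Finset.range N,
             (fun L => -g L) ((L.drop (r + ℓ * k)).take ℓ))))
        ≤ ∑ r ∈ Finset.range ℓ, 2 * Real.exp (- (ε ^ 2 * N / (16 * C ^ 2))) :=
          Finset.sum_le_sum hb
      _ = 2 * ℓ * Real.exp (- (ε ^ 2 * N / (16 * C ^ 2))) := by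
          rw [Finset.sum_const, Finset.card_range, nsmul_eq_mul]
          ring

end Pool.Agent.helper20.HP
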